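import Pool.Agent.H415.Per

/-! Herstein's conjecture on periodic multiplicative commutators holds in every division ring having
a noncommutative division subring `E` with `E ≠ [E, E]`. -/

set_option autoImplicit false

namespace Pool.Agent.Results.MP_8ed1d4_al.AdditiveCommutators

universe u v

/-- Suppose every multiplicative commutator of `D` is periodic modulo the centre. If `E` is a
noncommutative division ring mapped into `D` by `φ`, then every element of `E` is a sum of additive
commutators `a b - b a` of elements of `E`. -/
theorem result {D : Type u} [DivisionRing D]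
    (h : ∀ x y : D, x ≠ 0 → y ≠ 0 →
      ∃ n : ℕ, 1 ≤ n ∧ (x * y * x⁻¹ * y⁻¹) ^ n ∈ Subring.center D)
    {E : Type v} [DivisionRing E] (φ : E →+* D) (hE : ∃ x y : E, x * y ≠ y * x) :
    AddSubgroup.closure {c : E | ∃ a b : E, c = a * b - b * a} = ⊤ := by
  have hinj : Function.Injective φ := φ.injective
  have H : Pool.Agent.Helper656.Her.HH E := by
    intro x y hx hy
    obtain ⟨n, hn, hc⟩ := h (φ x) (φ y) (by simpa using hx) (by simpa using hy)
    refine ⟨n, hn, ?_⟩
    rw [Subring.mem_center_iff] at hc ⊢
    intro g
    apply hinj
    have h1 := hc (φ g)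
    rw [map_mul, map_mul, map_pow, map_mul, map_mul, map_mul, map_inv₀, map_inv₀]
    exact h1
  obtain ⟨x, y, hxy⟩ := hE
  rw [eq_top_iff]
  intro d _
  exact Pool.Agent.H415.main_per H hxy d

end Pool.Agent.Results.MP_8ed1d4_al.AdditiveCommutators
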